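import Pool.Agent.K4H69.TT.Last

/-!
# Turán's bound for `K_4^3` with three independent classes and one full kind of edges

Let `H` be a `K_4^3`-free 3-graph whose vertex set is divided into three classes `A`, `B`, `C`
(numbers `0`, `1`, `2`) with `|C| ≤ |A| ≤ |B|`, no class contains an edge, and all triples with two
vertices in `A` and one vertex in `B` are edges. Nothing is assumed about the edges of the other five
kinds. Then, with `a = |A|`, `b = |B|`, `c = |C|`,

`|H| ≤ a b c + (a² b + b² c + c² a) / 2` up to terms of degree two, and `|H| ≤ (5/54) n³`.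

Both are attained up to terms of degree two by the 3-graph with all edges of the kinds `AAB`, `BBC`,
`CCA` and `ABC`, for three classes of equal size this is Turán's construction. So the Turán density
of `K_4^3` for this class of 3-graphs is the conjectured value `5/9`.

The proof: a pair of vertices of `B` is in at most one edge with a vertex of `A`. Let `G`, `G'` be
the link graphs of two vertices `c`, `c'` of `C` on `A ∪ B`, and `I` the set of the vertices `v` such
that `v c c'` is an edge. No triangle of `G` has two vertices in `A` and one in `B`, and `I` is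
independent in `G ∩ G'`. A sum over the pairs of vertices of `A` (the sum of the degrees to `B` of
the ends of an edge of `G` in `A` is at most `|B|`) with a gain for the pairs in `I`, which is
controlled by the largest common neighbourhood in `I ∩ A` of a vertex of `B \ I`, bounds
`e(G) + e(G') + |C| |I|`. The sum over all pairs `c`, `c'` is the theorem.
-/

set_option autoImplicit false

namespace Pool.Agent.Results.MP_a4d830_co.FullKindAAB

open K4H69.TT

/-- Let `H` be a `K_4^3`-free 3-graph on `n` vertices with classes `0`, `1`, `2` of sizes
`a`, `b`, `c`, `c ≤ a ≤ b`, such that no class contains an edge and all triples with two vertices in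
the class `0` and one in the class `1` are edges. Then
`2 |H| ≤ 2 a b c + a (a - 1) b + b² c + c (c - 1) a + b (b - 1)` and `54 |H| ≤ 5 n³`. -/
theorem result (n : ℕ) (H : Finset (Finset (Fin n))) (h3 : ∀ e ∈ H, e.card = 3) (hK : K43Free H)
    (c : Fin n → Fin 3) (hin : ∀ e ∈ H, ∀ l, ∃ v ∈ e, c v ≠ l)
    (hAAB : ∀ x y z, x ≠ y → c x = 0 → c y = 0 → c z = 1 → ({x, y, z} : Finset (Fin n)) ∈ H)
    (hab : size c 0 ≤ size c 1) (hca : size c 2 ≤ size c 0) :
    2 * (H.card : ℤ) ≤ 2 * (size c 0) * (size c 1) * (size c 2) +
      (size c 0) * (size c 0 - 1) * (size c 1) + (size c 1 : ℤ) ^ 2 * (size c 2) +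
      (size c 2) * (size c 2 - 1) * (size c 0) + (size c 1) * (size c 1 - 1) ∧
    54 * H.card ≤ 5 * n ^ 3 :=
  ⟨bound h3 hK c hin hAAB hab hca, bound' h3 hK c hin hAAB hab hca⟩

end Pool.Agent.Results.MP_a4d830_co.FullKindAAB
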